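import Pool.Agent.Lib.MP_dbc9ae_lc.Final

/-!
# Every any-fit algorithm, the greedy one included, has ratio at least a constant times `√n`

The definitions of `Pt`, `Coll`, `GenPos`, `IsPartition`, `GP`, `Blocked`, `greedy`, `AnyFit` and
`parts` are in `Pool.Agent.Lib.MP_dbc9ae_lc.Defs`.
-/

namespace Pool.Agent.Results.MP_dbc9ae_lc.AnyFitTight

open _root_.MP_dbc9ae_lc

/-- For every `n ≥ 1` there is a sequence of `n` distinct points with small integer coordinates
which can be partitioned into two sets in general position, although every any-fit run (the greedy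
algorithm included) opens at least `√n / 16` parts on it. So the approximation ratio of the greedy
algorithm is at least `√n / 32` for every `n`. -/
theorem result :
    (∀ n : ℕ, 1 ≤ n → ∃ p : ℕ → Pt, Set.InjOn p (Set.Iio n) ∧
      (∀ i < n, ∃ u : ℤ, |u| ≤ 12 * n ∧ p i = ((u : ℚ), (u : ℚ) ^ 3)) ∧
      GP (p '' Set.Iio n) ≤ 2 ∧ AnyFit p n (greedy p) ∧
      ∀ f, AnyFit p n f → Real.sqrt n / 16 ≤ parts f n) ∧
    (∀ ρ : ℕ → ℝ, (∀ (n : ℕ) (p : ℕ → Pt), Set.InjOn p (Set.Iio n) →
        (parts (greedy p) n : ℝ) ≤ ρ n * GP (p '' Set.Iio n)) →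
      ∀ n : ℕ, 1 ≤ n → Real.sqrt n / 32 ≤ ρ n) := by
  refine ⟨fun n hn => ?_, ratio_all⟩
  obtain ⟨p, h1, h2, h3, h4⟩ := order_all hn
  exact ⟨p, h1, h2, h3, greedy_anyFit p n, h4⟩

end Pool.Agent.Results.MP_dbc9ae_lc.AnyFitTight
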