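import Pool.Agent.Lib.MP_dbc9ae_lc.Final

/-!
# Local search for general position partitions has ratio at least a constant times `√n`

The definitions of `Pt`, `Coll`, `GenPos`, `IsPartition` and `GP` are in
`Pool.Agent.Lib.MP_dbc9ae_lc.Defs`.
-/

namespace Pool.Agent.Results.MP_dbc9ae_lc.LocalSearchTight

open _root_.MP_dbc9ae_lc

/-- For every prime `q ≥ 5` and every `L ≥ 1` there is a set `S` of `8 L² (q - 1)²` points with
small integer coordinates and `GP(S) = 2`, and a partition of `S` into `(q - 1) / 2` nonempty parts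
in general position, such that every other partition of `S` into at most that many parts in
general position differs from it in more than `L²` points. -/
theorem result (q L : ℕ) (hq : q.Prime) (hq5 : 5 ≤ q) (hL : 1 ≤ L) :
    ∃ (S : Finset Pt) (c : Pt → ℕ), S.card = 8 * L ^ 2 * (q - 1) ^ 2 ∧
      (∀ a ∈ S, ∃ u : ℤ, |u| ≤ 39 * (L * q) ^ 2 ∧ a = ((u : ℚ), (u : ℚ) ^ 3)) ∧
      GP (S : Set Pt) = 2 ∧ IsPartition (S : Set Pt) ((q - 1) / 2) c ∧
      (∀ i < (q - 1) / 2, ∃ a ∈ S, c a = i) ∧
      ∀ c', IsPartition (S : Set Pt) ((q - 1) / 2) c' →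
        (S.filter (fun a => c' a ≠ c a)).card ≤ L ^ 2 → ∀ a ∈ S, c' a = c a :=
  local_all hq hq5 hL

end Pool.Agent.Results.MP_dbc9ae_lc.LocalSearchTight
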